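import Pool.Agent.Lib.MP_a60258_s6.H03.K6f
import Pool.Agent.Lib.MP_a60258_s6.H03.Kfa
import Pool.Agent.Lib.MP_a60258_s6.H05.Fib
import Pool.Agent.Lib.MP_a60258_s6.H05.Wrd
import Pool.Agent.Lib.MP_a60258_s6.H15.Sos
import Pool.Agent.Lib.MP_a60258_s6.H16.Pvz
import Pool.Agent.Lib.MP_a60258_s6.H22.Enu
import Pool.Agent.Lib.MP_a60258_s6.H24.Tri
import Pool.Agent.Lib.MP_a60258_s6.H30.Glu
import Pool.Agent.Lib.MP_a60258_s6.H43.Pvp
import Pool.Agent.Lib.MP_a60258_s6.H50.Evt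
import Pool.Agent.Lib.MP_a60258_s6.H54.Exa
import Pool.Agent.Lib.MP_a60258_s6.H57.Shf
import Pool.Agent.Lib.MP_a60258_s6.H63.Can
import Pool.Agent.Lib.MP_a60258_s6.H63.Nck
import Pool.Agent.Lib.MP_a60258_s6.H82.Fin
import Pool.Agent.Lib.MP_a60258_s6.H84.Gam
import Pool.Agent.Lib.MP_a60258_s6.H9.Rfa
import Pool.Agent.Lib.MP_a60258_s6.H91.Avg
import Pool.Agent.Lib.MP_a60258_s6.H92.Csi

/-!
# Assembly of the modules
-/

namespace A602.S6

theorem pvz_all : PvzStatement := H16.pvz H43.pvp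

theorem glu_all : GluStatement := H30.glu H43.pvp

theorem exa_all : ExaStatement := H54.exa H57.shf H43.pvp pvz_all

theorem k6f_all : K6fStatement := H03.k6f H57.shf exa_all H24.tri pvz_all

theorem sos_all : SosStatement := H15.sos H57.shf (H05.wrd H57.shf) glu_all

theorem kfa_all : KfaStatement := H03.kfa (H9.kid H50.evt) H05.fib sos_all H43.pvp pvz_all

theorem rfa_all : H82.RfaU := H9.rfaU (H92.csi glu_all H43.pvp) pvz_all

/-- soundness of the certificates -/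
theorem fin_all : FinStatement :=
  H82.fin k6f_all (H91.avg H43.pvp pvz_all) H63.can H22.enu H84.gam kfa_all rfa_all
    (H63.nck H43.pvp)

end A602.S6
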