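import Mathlib

/-!
# The sixth cumulant on the `p`-th chaos: the computing functions

Everything here is written with raw recursors, `cond` and the kernel-accelerated operations on
natural numbers, so that the certificates can be checked with `decide +kernel`.
-/

namespace A602.S6

/-! ### Raw tools -/

/-- force a natural number: equal to `f n` -/
def frc {β : Type} (n : ℕ) (f : ℕ → β) : β :=
  Nat.casesOn (motive := fun _ => β) n (f 0) (fun k => f (Nat.succ k))

/-- `f k` for all `k ≤ n` -/
def fa (n : ℕ) (f : ℕ → Bool) : Bool :=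
  Nat.rec (motive := fun _ => Bool) (f 0) (fun k ih => cond (f (Nat.succ k)) ih false) n

/-- `f a` for all elements of the list -/
def lall {β : Type} (l : List β) (f : β → Bool) : Bool :=
  List.rec (motive := fun _ => Bool) true (fun a _ ih => cond (f a) ih false) l

/-- the element number `n` of a list -/
def getR {β : Type} (dflt : β) (l : List β) : ℕ → β :=
  List.rec (motive := fun _ => ℕ → β) (fun _ => dflt)
    (fun a _ ih n => Nat.rec (motive := fun _ => β) a (fun k _ => ih k) n) l

/-- hexadecimal digit of `C` at the power `K` of `16` -/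
def dg (C K : ℕ) : ℕ := Nat.mod (Nat.div C K) 16

/-- the rows of Pascal's triangle -/
def CHT : List (List ℕ) := [[1],[1,1],[1,2,1],[1,3,3,1],[1,4,6,4,1],[1,5,10,10,5,1],
  [1,6,15,20,15,6,1],[1,7,21,35,35,21,7,1],[1,8,28,56,70,56,28,8,1],
  [1,9,36,84,126,126,84,36,9,1],[1,10,45,120,210,252,210,120,45,10,1],
  [1,11,55,165,330,462,462,330,165,55,11,1]]

/-- binomial coefficients, `y ≤ 11` -/
def ch (y n : ℕ) : ℕ := getR 0 (getR [] CHT y) n

/-! ### The data -/

/-- row of a table: the content `(a, b, c)` of the left prefix and the packed numbers `P + 2^63` for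
all contents of the right prefix; `r = 0` if the content does not occur -/
structure RW where
  a : ℕ
  b : ℕ
  c : ℕ
  r : ℕ

/-- right state -/
structure TE where
  code : ℕ
  rows : List RW
  corr : List (ℕ × ℤ)

/-- left state; `vec` are the packed Gram vectors of its contents -/
structure SE where
  code : ℕ
  vec : List ℕ
  ts : List TE

/-- a block: `key = m01 + m02 + m12`, the length `d` of the prefix, `cst = 2^63 * choose k d` -/
structure BL where
  key : ℕ
  d : ℕ
  cst : ℕ
  ss : List SE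

/-- right arrangement: powers of `16` of the pairs `34, 35, 45, 03, 04, 05, 13, ..., 25` -/
structure RA where
  d : ℕ
  e : ℕ
  f : ℕ
  y00 : ℕ
  y01 : ℕ
  y02 : ℕ
  y10 : ℕ
  y11 : ℕ
  y12 : ℕ
  y20 : ℕ
  y21 : ℕ
  y22 : ℕ

/-- left arrangement: powers of `16` of the pairs `01, 02, 12` -/
structure LA where
  a : ℕ
  b : ℕ
  c : ℕ
  rs : List RA

/-! ### Evaluation of a kernel -/

/-- list of `(weight, shift)` over `n1 + n2 + n3 = a`, `ni ≤ yi` -/
def tl (i1 i2 y1 y2 y3 a : ℕ) : List (ℕ × ℕ) :=
  List.rec (motive := fun _ => ℕ → ℕ → List (ℕ × ℕ) → List (ℕ × ℕ)) (fun _ _ acc => acc)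
    (fun c _ ih a s acc =>
      List.rec (motive := fun _ => ℕ → ℕ → List (ℕ × ℕ) → List (ℕ × ℕ)) (fun _ _ acc => acc)
        (fun c2 _ ih2 a s acc => frc (ch y3 a) fun c3 =>
          cond (Nat.beq c3 0)
            (Nat.rec (motive := fun _ => List (ℕ × ℕ)) acc (fun a' _ => ih2 a' (Nat.add s i2) acc) a)
            (List.cons (Prod.mk (Nat.mul c (Nat.mul c2 c3)) s)
              (Nat.rec (motive := fun _ => List (ℕ × ℕ)) acc
                (fun a' _ => ih2 a' (Nat.add s i2) acc) a)))
        (getR [] CHT y2) a s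
        (Nat.rec (motive := fun _ => List (ℕ × ℕ)) acc (fun a' _ => ih a' (Nat.add s i1) acc) a))
    (getR [] CHT y1) a 0 []

/-- `∑ w * f s` over the list -/
def sumT (l : List (ℕ × ℕ)) (f : ℕ → ℕ) : ℕ :=
  List.rec (motive := fun _ => ℕ) 0 (fun q _ ih => Nat.add (Nat.mul (Prod.fst q) (f (Prod.snd q))) ih) l

/-- `∑_n (∏ choose y n) * digit` over the `3 × 3` tables `n` -/
def evT (i1 i2 : ℕ) (rows : List RW) (y00 y01 y02 y10 y11 y12 y20 y21 y22 : ℕ) : ℕ :=
  List.rec (motive := fun _ => ℕ) 0 (fun rw _ ih => cond (Nat.beq rw.r 0) ih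
    (Nat.add (sumT (tl i1 i2 y00 y01 y02 rw.a) fun e1 =>
      sumT (tl i1 i2 y10 y11 y12 rw.b) fun e2 =>
        sumT (tl i1 i2 y20 y21 y22 rw.c) fun e3 =>
          Nat.mod (Nat.shiftRight rw.r (Nat.add e1 (Nat.add e2 e3))) 18446744073709551616) ih)) rows

/-- correction with the key `c` -/
def cor (l : List (ℕ × ℤ)) (c : ℕ) : ℤ :=
  List.rec (motive := fun _ => ℤ) 0 (fun q _ ih => cond (Nat.beq (Prod.fst q) c) (Prod.snd q) ih) l

/-- hexadecimal code of a `3 × 3` table -/
def cy (y00 y01 y02 y10 y11 y12 y20 y21 y22 : ℕ) : ℕ :=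
  Nat.add (Nat.mul 16 (Nat.add (Nat.mul 16 (Nat.add (Nat.mul 16 (Nat.add (Nat.mul 16 (Nat.add
    (Nat.mul 16 (Nat.add (Nat.mul 16 (Nat.add (Nat.mul 16 (Nat.add (Nat.mul 16 y00) y01)) y02)) y10))
    y11)) y12)) y20)) y21)) y22

/-- the value of the kernel for the pair of states `se`, `te` (all with `se ≤ te`, doubled if
they are different) -/
def trm (bl : BL) (se : SE) (te : TE) (y00 y01 y02 y10 y11 y12 y20 y21 y22 : ℕ) : ℤ :=
  Int.add (Int.mul (cond (Nat.beq se.code te.code) 1 2)
      (Int.sub (Int.ofNat (evT (Nat.mul 64 (Nat.succ bl.d)) 64 te.rows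
        y00 y01 y02 y10 y11 y12 y20 y21 y22)) (Int.ofNat bl.cst)))
    (cor te.corr (cy y00 y01 y02 y10 y11 y12 y20 y21 y22))

/-- code of a state -/
def cm (m0 m1 m2 : ℕ) : ℕ := Nat.add (Nat.mul 16 (Nat.add (Nat.mul 16 m0) m1)) m2

/-- first block with the key -/
def fB {β : Type} (dflt : β) (tab : List BL) (key : ℕ) (f : BL → β) : β :=
  List.rec (motive := fun _ => β) dflt (fun b _ ih => cond (Nat.beq b.key key) (f b) ih) tab

/-- first left state with the code -/
def fS {β : Type} (dflt : β) (ss : List SE) (code : ℕ) (f : SE → β) : β :=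
  List.rec (motive := fun _ => β) dflt (fun b _ ih => cond (Nat.beq b.code code) (f b) ih) ss

/-- first right state with the code -/
def fT {β : Type} (dflt : β) (ts : List TE) (code : ℕ) (f : TE → β) : β :=
  List.rec (motive := fun _ => β) dflt (fun b _ ih => cond (Nat.beq b.code code) (f b) ih) ts

/-- sum over the right arrangements, for the block `bl` and the left state `se` -/
def goR (bl : BL) (se : SE) (C : ℕ) (rs : List RA) : ℤ → ℤ :=
  List.rec (motive := fun _ => ℤ → ℤ) (fun acc => acc) (fun ra _ ih acc =>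
    frc (dg C ra.d) fun m0 => frc (dg C ra.e) fun m1 => frc (dg C ra.f) fun m2 =>
      cond (Nat.ble m1 m0) (cond (Nat.ble m2 m1)
        (fT (ih acc) se.ts (cm m0 m1 m2) fun te =>
          frc (dg C ra.y00) fun y00 => frc (dg C ra.y01) fun y01 => frc (dg C ra.y02) fun y02 =>
          frc (dg C ra.y10) fun y10 => frc (dg C ra.y11) fun y11 => frc (dg C ra.y12) fun y12 =>
          frc (dg C ra.y20) fun y20 => frc (dg C ra.y21) fun y21 => frc (dg C ra.y22) fun y22 =>
            ih (Int.sub acc (trm bl se te y00 y01 y02 y10 y11 y12 y20 y21 y22)))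
        (ih acc)) (ih acc)) rs

/-- number of right arrangements with `x23 = x45 = p` -/
def cntR (p C : ℕ) (rs : List RA) : ℕ :=
  List.rec (motive := fun _ => ℕ) 0 (fun ra _ ih =>
    cond (Nat.beq (dg C ra.y20) p) (cond (Nat.beq (dg C ra.f) p) (Nat.succ ih) ih) ih) rs

/-- **The class sum** of the graph with the code `C`. -/
def gam (p N : ℕ) (tab : List BL) (TB : List LA) (C : ℕ) : ℤ → ℤ :=
  List.rec (motive := fun _ => ℤ → ℤ) (fun acc => acc) (fun la _ ih acc =>
    frc (dg C la.a) fun m0 => frc (dg C la.b) fun m1 => frc (dg C la.c) fun m2 =>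
      cond (Nat.ble m1 m0) (cond (Nat.ble m2 m1)
        (cond (Nat.beq m0 p)
          (ih (Int.add acc (Int.sub (Int.ofNat (Nat.mul (Nat.mul 30 N) (cntR p C la.rs)))
            (Int.ofNat (Nat.mul 90 N)))))
          (cond (Nat.beq (Nat.mul 2 m0) p) (cond (Nat.beq (Nat.mul 2 m2) p)
              (ih (Int.sub acc (Int.ofNat (Nat.mul 60 N))))
              (ih (fB acc tab (Nat.add m0 (Nat.add m1 m2)) fun bl =>
                fS acc bl.ss (cm m0 m1 m2) fun se => goR bl se C la.rs acc)))
            (ih (fB acc tab (Nat.add m0 (Nat.add m1 m2)) fun bl =>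
              fS acc bl.ss (cm m0 m1 m2) fun se => goR bl se C la.rs acc))))
        (ih acc)) (ih acc)) TB

/-! ### The enumeration of the graphs -/

/-- relabelled code -/
def hor (C : ℕ) (ks : List ℕ) : ℕ → ℕ :=
  List.rec (motive := fun _ => ℕ → ℕ) (fun acc => acc)
    (fun k _ ih acc => ih (Nat.add (Nat.mul 16 acc) (dg C k))) ks

/-- `C` is not smaller than its images under the relabellings of the list -/
def can (FL : List (List ℕ)) (C : ℕ) : Bool :=
  List.rec (motive := fun _ => Bool) true (fun ks _ ih => cond (Nat.ble (hor C ks 0) C) ih false) FL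

/-- the check of one graph -/
def chk (p N : ℕ) (tab : List BL) (TB : List LA) (FL : List (List ℕ)) (C : ℕ) : Bool :=
  cond (can FL C) (decide (gam p N tab TB C (Int.ofNat (Nat.mul 720 N)) = 0)) true

/-- all graphs with given `x01`, `x02` -/
def enum (p N : ℕ) (tab : List BL) (TB : List LA) (FL : List (List ℕ)) (a b : ℕ) : Bool :=
  fa (Nat.min b (p - a - b)) fun c => fa (Nat.min c (p - a - b - c)) fun d =>
  frc (p - a - b - c - d) fun e => cond (Nat.ble e d)
  (fa (Nat.min a (p - a)) fun f => fa (Nat.min a (p - a - f)) fun g =>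
  fa (Nat.min a (p - a - f - g)) fun h => frc (p - a - f - g - h) fun i => cond (Nat.ble i a)
  (fa (Nat.min a (p - b - f)) fun j => fa (Nat.min a (p - b - f - j)) fun k =>
  frc (p - b - f - j - k) fun l => cond (Nat.ble l a)
    (cond (Nat.ble (c + g + j) p) (cond (Nat.ble (d + h + k) p) (cond (Nat.ble (e + i + l) p)
    (frc (p - (c + g + j)) fun r3 => frc (p - (d + h + k)) fun r4 => frc (p - (e + i + l)) fun r5 =>
      cond (Nat.ble r5 (r3 + r4)) (frc (Nat.div (r3 + r4 - r5) 2) fun u =>
        cond (Nat.beq (2 * u) (r3 + r4 - r5)) (cond (Nat.ble u r3) (cond (Nat.ble u r4)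
        (cond (Nat.ble u a) (cond (Nat.ble (r3 - u) a) (cond (Nat.ble (r4 - u) a) (frc (((((((((((((((a * 16 + b) * 16 + c) * 16 + d) * 16 + e) * 16 + f) * 16 + g) * 16 + h)
          * 16 + i) * 16 + j) * 16 + k) * 16 + l) * 16 + u) * 16 + (r3 - u)) * 16 + (r4 - u)))
          fun C => chk p N tab TB FL C)
        true) true) true) true) true) true) true) true) true) true) true) true) true

end A602.S6
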