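import Pool.Agent.Lib.MP_a60258_s6.Comp

/-!
# The computing functions, part 2: the checks of the blocks

`okB p bl` checks the shape of a block and the Gram property of its tables, `ddB p neck bl` checks
that the corrections are dominated by the mirror graphs.
-/

namespace A602.S6

/-- all contents of words of length `d` -/
def cts (d : ℕ) : List (ℕ × ℕ × ℕ) :=
  (List.range (d + 1)).flatMap fun a => (List.range (d - a + 1)).map fun b => (a, b, d - a - b)

/-- unpack a Gram vector: digits in base `2^40`, shifted by `2^39` -/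
def unp (v : ℕ) : List ℤ :=
  Nat.rec (motive := fun _ => ℕ → List ℤ) (fun _ => [])
    (fun _ ih v => cond (Nat.beq v 0) []
      (List.cons (Int.sub (Int.ofNat (Nat.mod v 1099511627776)) 549755813888)
        (ih (Nat.div v 1099511627776)))) 300 v

/-- scalar product -/
def dotZ (u : List ℤ) : List ℤ → ℤ :=
  List.rec (motive := fun _ => List ℤ → ℤ) (fun _ => 0)
    (fun a _ ih w => List.rec (motive := fun _ => ℤ) 0 (fun b w' _ => Int.add (Int.mul a b) (ih w')) w) u

/-- digit number `b` (slots of 64 bits) of `r` -/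
def d64 (r b : ℕ) : ℕ := Nat.mod (Nat.shiftRight r (Nat.mul 64 b)) 18446744073709551616

/-- check of the digits of one row against the Gram vectors -/
def okDig (d r : ℕ) (u : List ℤ) (cs : List (ℕ × ℕ × ℕ)) : List ℕ → Bool :=
  List.rec (motive := fun _ => List ℕ → Bool) (fun w => List.rec (motive := fun _ => Bool) true
      (fun _ _ _ => false) w)
    (fun c _ ih w => List.rec (motive := fun _ => Bool) false (fun v w' _ =>
      cond (decide (Int.ofNat (d64 r (Nat.add (Nat.mul (Nat.succ d) (Prod.fst c))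
          (Prod.fst (Prod.snd c)))) = Int.add 9223372036854775808 (dotZ u (unp v))))
        (ih w') false) w) cs

/-- check of the rows of one table; `q0 q1 q2` are the numbers of legs of the left state -/
def okRows (d q0 q1 q2 : ℕ) (cs0 : List (ℕ × ℕ × ℕ)) (vt : List ℕ) (cs : List (ℕ × ℕ × ℕ)) :
    List ℕ → List RW → Bool :=
  List.rec (motive := fun _ => List ℕ → List RW → Bool)
    (fun w rows => decide (w.length = 0) && decide (rows.length = 0))
    (fun c _ ih w rows => match w, rows with
      | v :: w', rw :: rows' =>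
        Nat.beq rw.a c.1 && Nat.beq rw.b c.2.1 && Nat.beq rw.c c.2.2
        && cond (Nat.beq rw.r 0)
          (Nat.beq v 0 && (Nat.blt q0 rw.a || Nat.blt q1 rw.b || Nat.blt q2 rw.c))
          (okDig d rw.r (unp v) cs0 vt)
        && ih w' rows'
      | _, _ => false) cs

/-- digits of the code of a state -/
def c0 (c : ℕ) : ℕ := c / 256
def c1 (c : ℕ) : ℕ := c / 16 % 16
def c2 (c : ℕ) : ℕ := c % 16

/-- the vectors of the state with the code `c` -/
def vecOf (ss : List SE) (c : ℕ) : List ℕ := fS [] ss c fun se => se.vec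

/-- check of a left state -/
def okS (p : ℕ) (bl : BL) (se : SE) : Bool :=
  let c := se.code
  Nat.ble (c1 c) (c0 c) && Nat.ble (c2 c) (c1 c) && Nat.ble 1 (c1 c) && Nat.ble (c0 c + c1 c) p
  && Nat.beq bl.key (c0 c + c1 c + c2 c) && Nat.beq (cm (c0 c) (c1 c) (c2 c)) c
  && se.ts.all fun te => okRows bl.d (p - (c0 c + c1 c)) (p - (c0 c + c2 c)) (p - (c1 c + c2 c))
      (cts bl.d) (vecOf bl.ss te.code) (cts bl.d) se.vec te.rows

/-- the right states are the states from the left state on, in order -/
def okTs : List SE → Bool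
  | [] => true
  | se :: ss => decide (se.ts.map (fun te => te.code) = (se :: ss).map fun s => s.code) && okTs ss

/-- the number of legs -/
def legs (p : ℕ) (bl : BL) : ℕ := 3 * p - 2 * bl.key

/-- **The check of a block.** -/
def okB (p : ℕ) (bl : BL) : Bool :=
  decide (2 * bl.key < 3 * p) && decide (bl.d ≤ legs p bl)
  && decide (bl.cst * (bl.d.factorial * (legs p bl - bl.d).factorial)
      = 9223372036854775808 * (legs p bl).factorial)
  && decide (bl.ss.map fun s => s.code).Nodup && okTs bl.ss && bl.ss.all (okS p bl)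

/-! ### Domination of the corrections -/

/-- `∏ p! / x!` over the digits of the number `c` (`n` digits) -/
def dq (fq : List ℕ) (n c : ℕ) : ℕ :=
  Nat.rec (motive := fun _ => ℕ → ℕ) (fun _ => 1)
    (fun _ ih c => Nat.mul (getR 0 fq (Nat.mod c 16)) (ih (Nat.div c 16))) n c

/-- quotients `p! / x!`, `x = 0, ..., p` -/
def fqs (p : ℕ) : List ℕ := (List.range (p + 1)).map fun x => p.factorial / x.factorial

/-- digit of a table code at the cell `(i, j)` -/
def yd (c i j : ℕ) : ℕ := c / 16 ^ (8 - (3 * i + j)) % 16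

/-- the code of the mirror table -/
def mirc (p c : ℕ) : ℕ := cy (p - (c0 c + c1 c)) 0 0 0 (p - (c0 c + c2 c)) 0 0 0 (p - (c1 c + c2 c))

/-- check of one correction: the graph is complete -/
def okC (p s t c : ℕ) : Bool :=
  decide (c < 16 ^ 9)
  && decide (c0 s + c1 s + (yd c 0 0 + yd c 0 1 + yd c 0 2) = p)
  && decide (c0 s + c2 s + (yd c 1 0 + yd c 1 1 + yd c 1 2) = p)
  && decide (c1 s + c2 s + (yd c 2 0 + yd c 2 1 + yd c 2 2) = p)
  && decide (c0 t + c1 t + (yd c 0 0 + yd c 1 0 + yd c 2 0) = p)
  && decide (c0 t + c2 t + (yd c 0 1 + yd c 1 1 + yd c 2 1) = p)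
  && decide (c1 t + c2 t + (yd c 0 2 + yd c 1 2 + yd c 2 2) = p)

/-- the pairs of states of a block with their corrections -/
def cors (bl : BL) : List (ℕ × ℕ × ℕ × ℤ) :=
  bl.ss.flatMap fun se => se.ts.flatMap fun te => te.corr.map fun q => (se.code, te.code, q.1, q.2)

/-- the weight `∏ p! / x!` of the graph with the codes `s`, `t`, `c` -/
def wt (fq : List ℕ) (s t c : ℕ) : ℕ := dq fq 3 s * (dq fq 3 t * dq fq 9 c)

/-- twice the mirror contributions at the state `u` -/
def dpos (p : ℕ) (fq : List ℕ) (l : List (ℕ × ℕ × ℕ × ℤ)) (u : ℕ) : ℕ :=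
  (l.map fun q => if q.1 = u ∧ q.2.1 = u ∧ q.2.2.1 = mirc p u then
    2 * (q.2.2.2.toNat * wt fq q.1 q.2.1 q.2.2.1) else 0).sum

/-- the other contributions at the state `u` -/
def dneg (p : ℕ) (fq : List ℕ) (l : List (ℕ × ℕ × ℕ × ℤ)) (u : ℕ) : ℕ :=
  (l.map fun q => if q.1 = q.2.1 ∧ q.2.2.1 = mirc p q.1 then 0 else
    ((if q.1 = u then 1 else 0) + if q.2.1 = u then 1 else 0) *
      (q.2.2.2.natAbs * wt fq q.1 q.2.1 q.2.2.1)).sum

/-- **The check of the corrections of a block**; `neck` is the code of the state of the necklace. -/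
def ddB (p neck : ℕ) (bl : BL) : Bool :=
  bl.ss.all (fun se => se.ts.all fun te => decide (te.corr.map Prod.fst).Nodup)
  && (cors bl).all (fun q => okC p q.1 q.2.1 q.2.2.1
    && (!(decide (q.1 = q.2.1 ∧ q.2.2.1 = mirc p q.1)) || decide (0 ≤ q.2.2.2)))
  && (bl.ss.map fun s => s.code).all fun u =>
    if u = neck then decide (dneg p (fqs p) (cors bl) u < dpos p (fqs p) (cors bl) u)
    else decide (dneg p (fqs p) (cors bl) u ≤ dpos p (fqs p) (cors bl) u)

/-- the pairs `(x01, x02)` -/
def abl (p : ℕ) : List (ℕ × ℕ) :=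
  (List.range (p + 1)).flatMap fun a => (List.range (min a (p - a) + 1)).map fun b => (a, b)

end A602.S6
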