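import Pool.Agent.Lib.MP_a60258_s6.Comp

/-! Certificate for p = 3 (generated). -/

namespace A602.S6.D3

/-- the block with 1 legs -/
def b4 : BL := ⟨4, 1, 9223372036854775808, [
  ⟨529, [549756016547, 0, 0], [⟨529, [⟨0, 0, 1, 3138550867693340382088035895064302439792088398025826808265⟩,
      ⟨0, 1, 0, 0⟩,
      ⟨1, 0, 0, 0⟩], [(1, Int.ofNat 55566093879)]⟩]⟩]⟩

/-- the block with 3 legs -/
def b3 : BL := ⟨3, 2, 27670116110564327424, [
  ⟨273, [0, 549755857976, 0, 549755857976, 549755857976, 0], [⟨273, [⟨0, 0, 2, 0⟩,
      ⟨0, 1, 1, 363419362147803445274661903944002267177888673861844556257396943472769290259979096230936470932781695371419599653180987034554067719290880⟩,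
      ⟨0, 2, 0, 0⟩,
      ⟨1, 0, 1, 363419362147803445274661903944002267177888673861844556257396943472769290259979096230936470932781695371419599653180987034554067719290880⟩,
      ⟨1, 1, 0, 363419362147803445274661903944002267177888673861844556257396943472769290259979096230936470932781695371419599653180987034554067719290880⟩,
      ⟨2, 0, 0, 0⟩], [(4295032833, Int.ofNat 41136458656)]⟩,
    ⟨528, [⟨0, 0, 2, 0⟩,
      ⟨0, 1, 1, 363419362147803445274661903944002267177888673861619485182000506488023078211715237967645889036164026612520304107468817325989721261575472⟩,
      ⟨0, 2, 0, 0⟩,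
      ⟨1, 0, 1, 363419362147803445274661903944002267177888673861619485182000506488023078211715237967645889036164026612520304107468817325989721261575472⟩,
      ⟨1, 1, 0, 363419362147803445274661903944002267177888673861619485182000506488023078211715237967645889036164026612520304107468817325989721261575472⟩,
      ⟨2, 0, 0, 0⟩], [(16781328, Int.negSucc 593027)]⟩]⟩,
  ⟨528, [604463142423842850400938, 664614073129351857156214104973699754, 0, 0, 0, 0], [⟨528, [⟨0, 0, 2, 363419362147803445274661903944002267177888673861619485182000506488023078211715237967645889036164026612519958610977566744062724110672285⟩,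
      ⟨0, 1, 1, 363419362147803445274661903944002267177888673861619485182000506488023078211715237967645889036164026612520553047503922825214946944585056⟩,
      ⟨0, 2, 0, 0⟩,
      ⟨1, 0, 1, 0⟩,
      ⟨1, 1, 0, 0⟩,
      ⟨2, 0, 0, 0⟩], [(65538, Int.ofNat 48194012723)]⟩]⟩]⟩

/-- the block with 5 legs -/
def b2 : BL := ⟨2, 2, 92233720368547758080, [
  ⟨272, [549755987444, 604462982973766101879869, 549755987444, 664614058122955658371905158660478571, 664614058122955658371905158660478571, 0], [⟨272, [⟨0, 0, 2, 363419362147803445274661903944002267177888673861405558877967201777881806415405486151636025202925702635325046999562950155277579975946384⟩,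
      ⟨0, 1, 1, 363419362147803445274661903944002267177888673861564013054755213166423601337658477527822852759655759154120270953686657410007994538392356⟩,
      ⟨0, 2, 0, 363419362147803445274661903944002267177888673861405558877967201777881806415405486151636025202925702635325046999562950155277579975946384⟩,
      ⟨1, 0, 1, 363419362147803445274661903944002267177888673861930073356593014382439294486640456277371310413492343990849561503240289195944331805021436⟩,
      ⟨1, 1, 0, 363419362147803445274661903944002267177888673861930073356593014382439294486640456277371310413492343990849561503240289195944331805021436⟩,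
      ⟨2, 0, 0, 0⟩], [(4295036945, Int.ofNat 27282), (4295098370, Int.ofNat 30517020424)]⟩]⟩]⟩

/-- the certificate -/
def tab : List BL := [b4, b3, b2]

/-- the scale -/
def N : ℕ := 1073741824

end A602.S6.D3
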