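import Pool.Agent.Lib.MP_a60258_c3.Check
import Pool.Agent.Lib.MP_a60258_c3.Limit
import Pool.Agent.Lib.MP_a60258_s6.Comp2
import Pool.Agent.Lib.MP_a60258_s6.Tables

/-!
# Positivity of the sixth cumulant on the chaos of order `p`: definitions and statements

See `Paper.md` for the proofs. Notation of `Lib/MP_a60258_c3`: `R = MvPolynomial ℕ ℝ`, `E` the
Gaussian expectation, `Cha S p P`, `val S l Q`, `pval S l Q`, `W S P l`, `glue`, `inl`, `inr`, `k6`.
-/

open MvPolynomial Finset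

namespace A602.S6

/-! ### Graphs on six vertices -/

/-- the 15 pairs of vertices: left (`01, 02, 12`), right (`34, 35, 45`), cross (`i, 3 + j`) -/
abbrev Pr := Fin 3 ⊕ Fin 3 ⊕ (Fin 3 × Fin 3)

/-- the three pairs of `Fin 3` -/
def in3 : Fin 3 → Fin 3 × Fin 3 := ![(0, 1), (0, 2), (1, 2)]

/-- the ends of a pair -/
def ends : Pr → Fin 6 × Fin 6
  | .inl i => Prod.map inl inl (in3 i)
  | .inr (.inl i) => Prod.map inr inr (in3 i)
  | .inr (.inr c) => (inl c.1, inr c.2)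

/-- position of the hexadecimal digit of a pair (`45` is the last digit) -/
def posP : Pr → ℕ
  | .inl i => ![14, 13, 9] i
  | .inr (.inl i) => ![2, 1, 0] i
  | .inr (.inr c) => ![![12, 11, 10], ![8, 7, 6], ![5, 4, 3]] c.1 c.2

/-- the pair with given ends (junk if they are equal) -/
def pr (u v : Fin 6) : Pr :=
  ![![.inl 0, .inl 0, .inl 1, .inr (.inr (0, 0)), .inr (.inr (0, 1)), .inr (.inr (0, 2))],
    ![.inl 0, .inl 0, .inl 2, .inr (.inr (1, 0)), .inr (.inr (1, 1)), .inr (.inr (1, 2))],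
    ![.inl 1, .inl 2, .inl 0, .inr (.inr (2, 0)), .inr (.inr (2, 1)), .inr (.inr (2, 2))],
    ![.inr (.inr (0, 0)), .inr (.inr (1, 0)), .inr (.inr (2, 0)), .inl 0, .inr (.inl 0), .inr (.inl 1)],
    ![.inr (.inr (0, 1)), .inr (.inr (1, 1)), .inr (.inr (2, 1)), .inr (.inl 0), .inl 0, .inr (.inl 2)],
    ![.inr (.inr (0, 2)), .inr (.inr (1, 2)), .inr (.inr (2, 2)), .inr (.inl 1), .inr (.inl 2), .inl 0]]
    u v

/-- a labelled graph (multiplicities of the pairs) from its left, right and cross parts -/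
def mk (m m' : Fin 3 → ℕ) (y : Fin 3 × Fin 3 → ℕ) : Pr → ℕ := Sum.elim m (Sum.elim m' y)

/-- the relabelled graph -/
def act (σ : Equiv.Perm (Fin 6)) (x : Pr → ℕ) : Pr → ℕ :=
  fun e => x (pr (σ (ends e).1) (σ (ends e).2))

/-- degree of a vertex -/
def deg (x : Pr → ℕ) (v : Fin 6) : ℕ := ∑ e, if v = (ends e).1 ∨ v = (ends e).2 then x e else 0

/-- all degrees are `p` -/
def Cmp (p : ℕ) (x : Pr → ℕ) : Prop := ∀ v, deg x v = p

/-- hexadecimal code -/
def code (x : Pr → ℕ) : ℕ := ∑ e, x e * 16 ^ posP e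

/-- the power of `16` of the pair `u v` -/
def KK (u v : Fin 6) : ℕ := 16 ^ posP (pr u v)

/-! ### Sums over multi-indices -/

section
variable {α : Type} [Fintype α] [DecidableEq α]

/-- `1 / x!` -/
noncomputable def ifac (x : α → ℕ) : ℝ := ∏ a, ((x a).factorial : ℝ)⁻¹

/-- `∑_{|x| = n} F x / x!` -/
noncomputable def Lf (n : ℕ) (F : (α → ℕ) → ℝ) : ℝ :=
  ∑ x ∈ Finset.piAntidiag (Finset.univ : Finset α) n, ifac x * F x

/-- content of a word -/
def ct {n : ℕ} (u : Fin n → α) : α → ℕ := fun a => (Finset.univ.filter fun t => u t = a).card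

/-- multiset of edges of a graph, `en` = the ends of the pairs -/
def ms {V : Type} (en : α → V × V) (x : α → ℕ) : Multiset (V × V) :=
  ∑ a, x a • ({en a} : Multiset (V × V))
end

/-- row contents of a table -/
def rowS (n : Fin 3 × Fin 3 → ℕ) : Fin 3 → ℕ := fun i => ∑ j, n (i, j)

/-- column contents of a table -/
def colS (n : Fin 3 × Fin 3 → ℕ) : Fin 3 → ℕ := fun j => ∑ i, n (i, j)

/-- **The graph sum** of a labelled graph. -/
noncomputable def Vx (S : Finset ℕ) (P : R) (x : Pr → ℕ) : ℝ :=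
  pval S (ms ends x).toList fun _ => P

/-- internal edges of a left state -/
def inL (m : Fin 3 → ℕ) : List (Fin 3 × Fin 3) :=
  List.replicate (m 0) (0, 1) ++ (List.replicate (m 1) (0, 2) ++ List.replicate (m 2) (1, 2))

/-! ### Module SHF -/

/-- the shift rule -/
def ShfStatement : Prop := ∀ (α : Type) [Fintype α] [DecidableEq α] (n : α → ℕ) (k : ℕ)
  (F : (α → ℕ) → ℝ),
  Lf k (fun y => F (n + y))
    = Lf (k + ∑ a, n a) fun y => (∏ a, ((y a).descFactorial (n a) : ℝ)) * F y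

/-! ### Module WRD -/

/-- words and contents -/
def WrdStatement : Prop := ∀ (α : Type) [Fintype α] [DecidableEq α] (n : ℕ) (F : (α → ℕ) → ℝ),
  ∑ u : Fin n → α, F (ct u) = (n.factorial : ℝ) * Lf n F

/-! ### Module FIB -/

/-- sums over the graphs with given left and right parts -/
def FibStatement : Prop := ∀ (m m' : Fin 3 → ℕ) (k : ℕ) (F : (Pr → ℕ) → ℝ),
  Lf (∑ i, m i + ∑ i, m' i + k) (fun x : Pr → ℕ =>
      if (∀ i, x (.inl i) = m i) ∧ ∀ i, x (.inr (.inl i)) = m' i then F x else 0)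
    = ifac m * ifac m' * Lf k fun y => F (mk m m' y)

/-! ### Modules PVP, PVZ, GLU -/

/-- invariance of `pval` and `Vx` -/
def PvpStatement : Prop :=
  (∀ (V : Type) [Fintype V] [DecidableEq V] (S : Finset ℕ) (l l' : List (V × V)) (Q : V → R),
    l.Perm l' → pval S l Q = pval S l' Q) ∧
  ∀ (S : Finset ℕ) (P : R) (σ : Equiv.Perm (Fin 6)) (x : Pr → ℕ), Vx S P (act σ x) = Vx S P x

/-- incomplete graphs have graph sum zero -/
def PvzStatement : Prop := ∀ (S : Finset ℕ) (p : ℕ) (P : R) (x : Pr → ℕ), Cha S p P →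
  ¬ Cmp p x → Vx S P x = 0

/-- glued graphs -/
def GluStatement : Prop := ∀ (S : Finset ℕ) (P : R) (k : ℕ) (w w' : Fin k → Fin 3)
  (m m' : Fin 3 → ℕ),
  pval S (glue (List.ofFn w) (List.ofFn w') (inL m) (inL m')) (fun _ => P)
    = Vx S P (mk m m' (ct fun t => (w t, w' t)))

/-! ### Module EXA -/

/-- the expansion of the values of `val` in complete graphs, on six vertices -/
def ExaStatement : Prop := ∀ (S : Finset ℕ) (p : ℕ) (P : R) (x : Pr → ℕ) (k : ℕ), Cha S p P →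
  k + ∑ e, x e = 3 * p →
  val S (ms ends x).toList (fun _ => P) = Lf k fun y => Vx S P (x + y)

/-- the third moment, even order: the only complete graph on three vertices is the triangle -/
def TriStatement : Prop := ∀ (S : Finset ℕ) (q : ℕ) (P : R), Cha S (2 * q) P →
  val S (List.replicate q ((0 : Fin 6), (1 : Fin 6)) ++ (List.replicate q (0, 2)
    ++ List.replicate q (1, 2))) (fun _ => P) = (q.factorial : ℝ) ^ 3 * E (P ^ 3) ^ 2

/-! ### Module K6F -/

/-- the coefficients of the sixth cumulant -/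
def cc (p : ℕ) (x : Pr → ℕ) : ℤ :=
  1 + if x (.inl 1) ≤ x (.inl 0) ∧ x (.inl 2) ≤ x (.inl 1) then
    (if x (.inl 0) = p then -15 + (if x (.inr (.inr (2, 0))) = p ∧ x (.inr (.inl 2)) = p then 30 else 0)
      else if 2 * x (.inl 0) = p ∧ 2 * x (.inl 2) = p then -10 else 0) else 0

/-- the sixth cumulant as a sum over graphs -/
def K6fStatement : Prop := ∀ (S : Finset ℕ) (p : ℕ) (P : R), 1 ≤ p → Cha S p P →
  k6 P = Lf (3 * p) fun x : Pr → ℕ => (cc p x : ℝ) * Vx S P x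

/-! ### Module SOS -/

/-- the sums of squares: the coefficient of a half graph depends on the state and on the content of
the first `d` legs -/
def SosStatement : Prop := ∀ (S : Finset ℕ) (P : R) (n : ℕ) (st : Fin n → Fin 3 → ℕ) (d e Q : ℕ)
  (φ : Fin Q → Fin n → (Fin 3 → ℕ) → ℝ),
  0 ≤ ∑ s, ∑ t, ifac (st s) * ifac (st t) * Lf (d + e) fun y : Fin 3 × Fin 3 → ℕ =>
    (∑ b ∈ Finset.piAntidiag Finset.univ d, (∏ c, ((y c).choose (b c) : ℝ))
      * ∑ q, φ q s (rowS b) * φ q t (colS b)) * Vx S P (mk (st s) (st t) y)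

/-! ### Modules AVG, CAN -/

/-- averaging over the relabellings -/
def AvgStatement : Prop := ∀ (S : Finset ℕ) (p : ℕ) (P : R) (g : (Pr → ℕ) → ℤ), Cha S p P →
  (∀ x, Cmp p x → ∑ σ : Equiv.Perm (Fin 6), g (act σ x) = 0) →
  Lf (3 * p) (fun x : Pr → ℕ => (g x : ℝ) * Vx S P x) = 0

/-- class functions need only be checked on the graphs with maximal code -/
def CanStatement : Prop := ∀ (p : ℕ) (g : (Pr → ℕ) → ℤ),
  (∀ x, Cmp p x → (∀ σ, code (act σ x) ≤ code x) → ∑ σ : Equiv.Perm (Fin 6), g (act σ x) = 0) →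
  ∀ x, Cmp p x → ∑ σ : Equiv.Perm (Fin 6), g (act σ x) = 0

/-! ### Module ENU -/

/-- the enumeration reaches all graphs with maximal code -/
def EnuStatement : Prop := ∀ (p N : ℕ) (tab : List BL), 1 ≤ p → p ≤ 11 →
  (∀ a b, b ≤ a → a + b ≤ p → enum p N tab TB FL a b = true) →
  ∀ x, Cmp p x → (∀ σ, code (act σ x) ≤ code x) →
    gam p N tab TB (code x) (Int.ofNat (Nat.mul 720 N)) = 0

/-! ### Module GAM -/

/-- the kernel part and the correction part of the tables at a labelled graph, `f` = value of a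
pair of states -/
def lkp {β : Type} (dflt : β) (p : ℕ) (tab : List BL) (x : Pr → ℕ)
    (f : BL → SE → TE → β) : β :=
  if x (.inl 1) ≤ x (.inl 0) ∧ x (.inl 2) ≤ x (.inl 1) ∧ x (.inl 0) ≠ p
      ∧ ¬ (2 * x (.inl 0) = p ∧ 2 * x (.inl 2) = p)
      ∧ x (.inr (.inl 1)) ≤ x (.inr (.inl 0)) ∧ x (.inr (.inl 2)) ≤ x (.inr (.inl 1)) then
    fB dflt tab (x (.inl 0) + (x (.inl 1) + x (.inl 2))) fun bl =>
      fS dflt bl.ss (cm (x (.inl 0)) (x (.inl 1)) (x (.inl 2))) fun se =>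
        fT dflt se.ts (cm (x (.inr (.inl 0))) (x (.inr (.inl 1))) (x (.inr (.inl 2)))) fun te =>
          f bl se te
  else dflt

/-- cross multiplicity -/
def yy (x : Pr → ℕ) (i j : Fin 3) : ℕ := x (.inr (.inr (i, j)))

/-- the value of the tables -/
def Bf (p : ℕ) (tab : List BL) (x : Pr → ℕ) : ℤ :=
  lkp 0 p tab x fun bl se te => trm bl se te (yy x 0 0) (yy x 0 1) (yy x 0 2) (yy x 1 0) (yy x 1 1)
    (yy x 1 2) (yy x 2 0) (yy x 2 1) (yy x 2 2)

/-- the class sum computed by `gam` -/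
def GamStatement : Prop := ∀ (p N : ℕ) (tab : List BL) (x : Pr → ℕ), (∀ e, x e ≤ 15) →
  gam p N tab TB (code x) (Int.ofNat (Nat.mul 720 N))
    = ∑ σ : Equiv.Perm (Fin 6), ((N : ℤ) * cc p (act σ x) - Bf p tab (act σ x))

/-! ### Module EVT -/

/-- the packed number of the row with the content `α` (`0` if there is none) -/
def rv (rows : List RW) (α : Fin 3 → ℕ) : ℕ :=
  ((rows.find? fun rw => rw.a == α 0 && rw.b == α 1 && rw.c == α 2).map RW.r).getD 0

/-- evaluation of a table -/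
def EvtStatement : Prop := ∀ (d : ℕ) (rows : List RW) (y : Fin 3 × Fin 3 → ℕ),
  (rows.map fun rw => (rw.a, rw.b, rw.c)) = cts d → (∀ c, y c ≤ 11) →
  evT (Nat.mul 64 (Nat.succ d)) 64 rows (y (0, 0)) (y (0, 1)) (y (0, 2)) (y (1, 0)) (y (1, 1))
      (y (1, 2)) (y (2, 0)) (y (2, 1)) (y (2, 2))
    = ∑ b ∈ Finset.piAntidiag Finset.univ d, (∏ c, (y c).choose (b c))
      * d64 (rv rows (rowS b)) ((d + 1) * colS b 0 + colS b 1)

/-! ### Module KID -/

/-- the state with a given code -/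
def stf (c : ℕ) : Fin 3 → ℕ := ![c0 c, c1 c, c2 c]

/-- the kernel part of `trm` -/
def trmK (bl : BL) (se : SE) (te : TE) (x : Pr → ℕ) : ℤ :=
  (if se.code = te.code then 1 else 2) *
    ((evT (Nat.mul 64 (Nat.succ bl.d)) 64 te.rows (yy x 0 0) (yy x 0 1) (yy x 0 2) (yy x 1 0)
      (yy x 1 1) (yy x 1 2) (yy x 2 0) (yy x 2 1) (yy x 2 2) : ℤ) - bl.cst)

/-- for a checked block the kernel is the Gram kernel of integer vectors -/
def KidStatement : Prop := ∀ (p : ℕ) (bl : BL), p ≤ 11 → okB p bl = true →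
  ∃ φ : ℕ → ℕ → (Fin 3 → ℕ) → ℤ, ∀ se ∈ bl.ss, ∀ te ∈ se.ts, ∀ y : Fin 3 × Fin 3 → ℕ,
    Cmp p (mk (stf se.code) (stf te.code) y) →
    trmK bl se te (mk (stf se.code) (stf te.code) y)
      = (if se.code = te.code then 1 else 2) * ∑ b ∈ Finset.piAntidiag Finset.univ bl.d,
        (∏ c, ((y c).choose (b c) : ℤ))
          * ∑ q ∈ Finset.range 300, φ q se.code (rowS b) * φ q te.code (colS b)

/-! ### Module KFA -/

/-- the kernel part of `Bf` -/
def Kf (p : ℕ) (tab : List BL) (x : Pr → ℕ) : ℤ := lkp 0 p tab x fun bl se te => trmK bl se te x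

/-- the correction part of `Bf` -/
def Rf (p : ℕ) (tab : List BL) (x : Pr → ℕ) : ℤ := lkp 0 p tab x fun _ _ te =>
  cor te.corr (cy (yy x 0 0) (yy x 0 1) (yy x 0 2) (yy x 1 0) (yy x 1 1) (yy x 1 2) (yy x 2 0)
    (yy x 2 1) (yy x 2 2))

/-- the kernel part is non-negative -/
def KfaStatement : Prop := ∀ (S : Finset ℕ) (p : ℕ) (P : R) (tab : List BL), 1 ≤ p → p ≤ 11 →
  Cha S p P → (tab.map fun b => b.key).Nodup → (∀ bl ∈ tab, okB p bl = true) →
  0 ≤ Lf (3 * p) fun x : Pr → ℕ => (Kf p tab x : ℝ) * Vx S P x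

/-! ### Modules CSI, NCK, RFA -/

/-- legs of a state -/
def lgs (p : ℕ) (m : Fin 3 → ℕ) : Fin 3 → ℕ := ![p - (m 0 + m 1), p - (m 0 + m 2), p - (m 1 + m 2)]

/-- the mirror graph of a state -/
def mir (p : ℕ) (m : Fin 3 → ℕ) : Pr → ℕ := mk m m fun c => if c.1 = c.2 then lgs p m c.1 else 0

/-- Cauchy-Schwarz -/
def CsiStatement : Prop := ∀ (S : Finset ℕ) (p : ℕ) (P : R), Cha S p P →
  (∀ m : Fin 3 → ℕ, 0 ≤ Vx S P (mir p m)) ∧
  ∀ (m m' : Fin 3 → ℕ) (y : Fin 3 × Fin 3 → ℕ), Cmp p (mk m m' y) →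
    2 * |Vx S P (mk m m' y)| ≤ Vx S P (mir p m) + Vx S P (mir p m')

/-- the necklace dominates the influences -/
def NckStatement : Prop := ∀ (S : Finset ℕ) (q : ℕ) (P : R), Cha S (q + 1) P → ∀ i : ℕ,
  (q.factorial : ℝ) ^ 3 * E (pderiv i P ^ 2) ^ 3 ≤ Vx S P (mir (q + 1) ![q, 1, 0])

/-- the corrections are dominated -/
def RfaStatement : Prop := ∀ (S : Finset ℕ) (p : ℕ) (P : R) (tab : List BL) (bn : BL) (sn : SE),
  2 ≤ p → p ≤ 11 → Cha S p P → (tab.map fun b => b.key).Nodup → (∀ bl ∈ tab, okB p bl = true) →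
  (∀ bl ∈ tab, ddB p (cm (p - 1) 1 0) bl = true) →
  bn ∈ tab → sn ∈ bn.ss → sn.code = cm (p - 1) 1 0 →
  ∃ c : ℝ, 0 < c ∧ c * Vx S P (mir p ![p - 1, 1, 0])
    ≤ Lf (3 * p) fun x : Pr → ℕ => (Rf p tab x : ℝ) * Vx S P x

/-! ### Module FIN -/

/-- the final statement for one order -/
def FinStatement : Prop := ∀ (p N : ℕ) (tab : List BL) (bn : BL) (sn : SE), 2 ≤ p → p ≤ 11 →
  0 < N → (tab.map fun b => b.key).Nodup → (∀ bl ∈ tab, okB p bl = true) →
  (∀ bl ∈ tab, ddB p (cm (p - 1) 1 0) bl = true) →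
  bn ∈ tab → sn ∈ bn.ss → sn.code = cm (p - 1) 1 0 →
  (∀ a b, b ≤ a → a + b ≤ p → enum p N tab TB FL a b = true) →
  ∃ c0 : ℝ, 0 < c0 ∧ ∀ (S : Finset ℕ) (P : R), Cha S p P → ∀ i : ℕ,
    c0 * E (pderiv i P ^ 2) ^ 3 ≤ k6 P

end A602.S6
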