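import Pool.Agent.Lib.MP_a60258_s6.Asm
import Pool.Agent.Lib.MP_a60258_s6.K.K3
import Pool.Agent.Lib.MP_a60258_s6.K.K4
import Pool.Agent.Lib.MP_a60258_s6.K.K5
import Pool.Agent.Lib.MP_a60258_s6.K.K6
import Pool.Agent.Lib.MP_a60258_s6.K.K7
import Pool.Agent.Lib.MP_a60258_s6.K.K8
import Pool.Agent.Lib.MP_a60258_s6.K.K9
import Pool.Agent.Lib.MP_a60258_s6.K.K10

/-!
# The sixth cumulant dominates the influences, orders `3, ..., 10`
-/

open MvPolynomial

namespace A602.S6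

/-- the lower bound of the sixth cumulant -/
theorem main_ten (p : ℕ) (h3 : 3 ≤ p) (h10 : p ≤ 10) : ∃ c0 : ℝ, 0 < c0 ∧
    ∀ (S : Finset ℕ) (P : R), Cha S p P → ∀ i : ℕ, c0 * E (pderiv i P ^ 2) ^ 3 ≤ k6 P := by
  interval_cases p
  · exact K.main3 fin_all
  · exact K.main4 fin_all
  · exact K.main5 fin_all
  · exact K.main6 fin_all
  · exact K.main7 fin_all
  · exact K.main8 fin_all
  · exact K.main9 fin_all
  · exact K.main10 fin_all

end A602.S6
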