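import Pool.Agent.Lib.MP_a60258_s6.Comp
import Pool.Agent.Lib.MP_a60258_s6.Tables

/-!
# Splitting the enumeration into small pieces
-/

namespace A602.S6

/-- all graphs with given `x01, x02, x03, x04, x05`, `x12`, `x13` -/
def enG (p N : ℕ) (tab : List BL) (TB : List LA) (FL : List (List ℕ)) (a b c d e f g : ℕ) : Bool :=
  fa (Nat.min a (p - a - f - g)) fun h => frc (p - a - f - g - h) fun i => cond (Nat.ble i a)
  (fa (Nat.min a (p - b - f)) fun j => fa (Nat.min a (p - b - f - j)) fun k =>
  frc (p - b - f - j - k) fun l => cond (Nat.ble l a)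
    (cond (Nat.ble (c + g + j) p) (cond (Nat.ble (d + h + k) p) (cond (Nat.ble (e + i + l) p)
    (frc (p - (c + g + j)) fun r3 => frc (p - (d + h + k)) fun r4 => frc (p - (e + i + l)) fun r5 =>
      cond (Nat.ble r5 (r3 + r4)) (frc (Nat.div (r3 + r4 - r5) 2) fun u =>
        cond (Nat.beq (2 * u) (r3 + r4 - r5)) (cond (Nat.ble u r3) (cond (Nat.ble u r4)
        (cond (Nat.ble u a) (cond (Nat.ble (r3 - u) a) (cond (Nat.ble (r4 - u) a) (frc (((((((((((((((a * 16 + b) * 16 + c) * 16 + d) * 16 + e) * 16 + f) * 16 + g) * 16 + h)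
          * 16 + i) * 16 + j) * 16 + k) * 16 + l) * 16 + u) * 16 + (r3 - u)) * 16 + (r4 - u)))
          fun C => chk p N tab TB FL C)
        true) true) true) true) true) true) true) true) true) true) true) true

lemma fa_of {n : ℕ} {f : ℕ → Bool} (h : ∀ k ≤ n, f k = true) : fa n f = true := by
  induction n with
  | zero => exact h 0 le_rfl
  | succ n ih =>
    show cond (f (n + 1)) (fa n f) false = true
    rw [h (n + 1) le_rfl, ih fun k hk => h k (Nat.le_succ_of_le hk)]
    rfl

lemma frc_eq {β : Type} (n : ℕ) (f : ℕ → β) : frc n f = f n := by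
  cases n <;> rfl

lemma lall_iff {β : Type} {l : List β} {f : β → Bool} : lall l f = true ↔ ∀ a ∈ l, f a = true := by
  induction l with
  | nil => exact ⟨fun _ a ha => absurd ha (by simp), fun _ => rfl⟩
  | cons a l ih =>
    have h1 : lall (a :: l) f = cond (f a) (lall l f) false := rfl
    rw [h1, List.forall_mem_cons, ← ih]
    cases f a <;> simp

/-- a piece of the enumeration: the values of `x01, ..., x05, x12, x13` -/
structure PC where
  a : ℕ
  b : ℕ
  c : ℕ
  d : ℕ
  e : ℕ
  f : ℕ
  g : ℕ

/-- the pieces with given `x01, ..., x05` -/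
def pcs (p a b c d e : ℕ) : List PC :=
  (List.range (min a (p - a) + 1)).flatMap fun f => (List.range (min a (p - a - f) + 1)).map fun g =>
    ⟨a, b, c, d, e, f, g⟩

/-- the pieces -/
def pieces (p : ℕ) : List PC :=
  (List.range (p + 1)).flatMap fun a => (List.range (min a (p - a) + 1)).flatMap fun b =>
    (List.range (min b (p - a - b) + 1)).flatMap fun c =>
      (List.range (min c (p - a - b - c) + 1)).flatMap fun d =>
        if p - a - b - c - d ≤ d then pcs p a b c d (p - a - b - c - d) else []

/-- the check of a list of pieces -/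
def enL (p N : ℕ) (tab : List BL) (l : List PC) : Bool :=
  lall l fun q => enG p N tab TB FL q.a q.b q.c q.d q.e q.f q.g

lemma enL_append {p N : ℕ} {tab : List BL} {l l' : List PC}
    (h : enL p N tab l = true) (h' : enL p N tab l' = true) : enL p N tab (l ++ l') = true := by
  unfold enL at *
  rw [lall_iff] at *
  intro a ha
  rcases List.mem_append.mp ha with ha | ha
  · exact h a ha
  · exact h' a ha

/-- codes of the pieces -/
def pco (l : List PC) : List (List ℕ) := l.map fun q => [q.a, q.b, q.c, q.d, q.e, q.f, q.g]

lemma enL_pco {p N : ℕ} {tab : List BL} {l l' : List PC} (h : pco l = pco l')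
    (h' : enL p N tab l = true) : enL p N tab l' = true := by
  have : l = l' := by
    refine List.map_injective_iff.mpr (fun x y hxy => ?_) h
    cases x; cases y
    simp only [List.cons.injEq, and_true] at hxy
    simp only [PC.mk.injEq]
    exact hxy
  rwa [← this]

lemma enum_of {p N : ℕ} {tab : List BL} (h : enL p N tab (pieces p) = true) :
    ∀ a b, b ≤ a → a + b ≤ p → enum p N tab TB FL a b = true := by
  intro a b hab hp
  unfold enL at h
  rw [lall_iff] at h
  have h1 : enum p N tab TB FL a b = fa (Nat.min b (p - a - b)) fun c =>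
      fa (Nat.min c (p - a - b - c)) fun d => frc (p - a - b - c - d) fun e => cond (Nat.ble e d)
        (fa (Nat.min a (p - a)) fun f => fa (Nat.min a (p - a - f)) fun g =>
          enG p N tab TB FL a b c d e f g) true := rfl
  rw [h1]
  refine fa_of fun c hc => fa_of fun d hd => ?_
  rw [frc_eq]
  by_cases he : p - a - b - c - d ≤ d
  · have he' : Nat.ble (p - a - b - c - d) d = true := Nat.ble_eq.mpr he
    rw [he', cond_true]
    refine fa_of fun f hf => fa_of fun g hg => ?_
    refine h ⟨a, b, c, d, p - a - b - c - d, f, g⟩ ?_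
    unfold pieces
    simp only [List.mem_flatMap, List.mem_range]
    refine ⟨a, by omega, b, ?_, c, ?_, d, ?_, ?_⟩
    · have : b ≤ min a (p - a) := le_min hab (by omega)
      omega
    · have : c ≤ min b (p - a - b) := hc
      omega
    · have : d ≤ min c (p - a - b - c) := hd
      omega
    · rw [if_pos he]
      refine List.mem_flatMap.mpr ⟨f, List.mem_range.mpr ?_,
        List.mem_map.mpr ⟨g, List.mem_range.mpr ?_, rfl⟩⟩
      · have : f ≤ min a (p - a) := hf
        omega
      · have : g ≤ min a (p - a - f) := hg
        omega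
  · have he' : Nat.ble (p - a - b - c - d) d = false := by
      rw [← Bool.not_eq_true]
      exact fun hh => he (Nat.ble_eq.mp hh)
    rw [he', cond_false]

end A602.S6
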