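import Pool.Agent.Lib.MP_a60258_s6.Comp2
import Pool.Agent.Lib.MP_a60258_s6.Split

/-!
# Splitting the check of a block
-/

namespace A602.S6

/-- the first part of the check of a block -/
def okH (p : ℕ) (bl : BL) : Bool :=
  decide (2 * bl.key < 3 * p) && decide (bl.d ≤ legs p bl)
  && decide (bl.cst * (bl.d.factorial * (legs p bl - bl.d).factorial)
      = 9223372036854775808 * (legs p bl).factorial)
  && decide (bl.ss.map fun s => s.code).Nodup && okTs bl.ss

/-- the check of the left states number `i, ..., i + j - 1` -/
def okP (p : ℕ) (bl : BL) (i j : ℕ) : Bool := ((bl.ss.drop i).take j).all (okS p bl)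

/-- the check of the left states from number `i` on -/
def okD (p : ℕ) (bl : BL) (i : ℕ) : Bool := (bl.ss.drop i).all (okS p bl)

lemma okD_of {p : ℕ} {bl : BL} (i j : ℕ) (h1 : okP p bl i j = true) (h2 : okD p bl (i + j) = true) :
    okD p bl i = true := by
  unfold okD okP at *
  rw [← List.take_append_drop j (bl.ss.drop i), List.all_append, h1, List.drop_drop, h2]
  rfl

lemma okB_of {p : ℕ} {bl : BL} (h1 : okH p bl = true) (h2 : okD p bl 0 = true) :
    okB p bl = true := by
  unfold okB
  unfold okH at h1
  unfold okD at h2
  rw [List.drop_zero] at h2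
  rw [h1, h2]
  rfl

end A602.S6
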